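import Pool.Agent.Lib.MP_90787a_nt.Main

set_option autoImplicit false

/-!
Uniform boundedness of the preperiodic points of polynomials with nonsplit reduction: the bound
is `C (s + 1) log (s + 2)`, where `s` is the number of places of bad reduction at which the
reduction splits, whatever the number of places of nonsplit bad reduction.
-/

namespace Pool.Agent.Results.MP_90787a_nt.NonsplitReduction

open Polynomial NumberField Pool.Agent.UBC90787a

theorem result (D d : ℕ) (hD : 1 ≤ D) (hd : 2 ≤ d) (σ : ℝ) : ∃ C : ℝ,
    ∀ (K : Type) [Field K] [NumberField K], Module.finrank ℚ K = D →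
      ∀ f : K[X], f.natDegree = d → ∀ S T : Finset (FinitePlace K),
      (∀ v ∈ T, Nonsplit v f) →
      (∀ U : Finset (FinitePlace K), Disjoint U S → Disjoint U T →
        ∑ v ∈ U, localWeight v f ≤ σ * (1 + ∑ v ∈ T, localWeight v f)) →
      ∀ Z : Finset K,
        (∀ x ∈ Z, ∃ i j : ℕ, j < i ∧ (fun z => f.eval z)^[i] x = (fun z => f.eval z)^[j] x) →
      (Z.card : ℝ) ≤ C * (S.card + 1) * Real.log (S.card + 2) :=
  main_nonsplit D d hD hd σ

end Pool.Agent.Results.MP_90787a_nt.NonsplitReduction
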