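import Mathlib
import Pool.Agent.Lib.MP_90787a_nt.Uni.Main

/-!
# MP_90787a_nt: a uniform bound for the family `x ^ d + c`, `c ∈ ℚ`

Let `d ≡ 4 (mod 12)` and let `w` be the number of odd primes which divide `d` exactly once. If
`w ≤ 1` (for example `d = 4 ^ k`, where `w = 0`), then for every rational `c` the polynomial
`x ^ d + c` has at most `4 ^ (w + 1)` rational preperiodic points.
-/

namespace Pool.Agent.Results.MP_90787a_nt.UnicriticalFamily

open Pool.Agent.MP90787a.Uni

theorem result (d : ℕ) (hd : d % 12 = 4) (w : ℕ)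
    (hw : (d.primeFactors.filter fun q => q ≠ 2 ∧ padicValNat q d = 1).card = w) (hw1 : w ≤ 1)
    (c : ℚ) :
    {x : ℚ | ∃ i j : ℕ, i < j ∧
      (fun y : ℚ => y ^ d + c)^[i] x = (fun y : ℚ => y ^ d + c)^[j] x}.encard ≤ 4 ^ (w + 1) := by
  have h4 : 4 ∣ d := by omega
  have h3 : d % 3 = 1 := by omega
  have hd0 : d ≠ 0 := by omega
  have hset : {x : ℚ | ∃ i j : ℕ, i < j ∧
      (fun y : ℚ => y ^ d + c)^[i] x = (fun y : ℚ => y ^ d + c)^[j] x} = Pre d c := rfl
  have hmem : ∀ q : ℕ, q.Prime → q ≠ 2 → padicValNat q d = 1 →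
      q ∈ d.primeFactors.filter fun q => q ≠ 2 ∧ padicValNat q d = 1 := by
    intro q hq hq2 hq1
    have := Fact.mk hq
    rw [Finset.mem_filter]
    exact ⟨Nat.mem_primeFactors.2 ⟨hq, dvd_of_one_le_padicValNat (by omega), hd0⟩, hq2, hq1⟩
  rw [hset]
  interval_cases w
  · have h := main_zero h4 h3 (fun q hq hq2 hq1 => by
      have h1 := hmem q hq hq2 hq1
      rw [Finset.card_eq_zero.1 hw] at h1
      exact absurd h1 (Finset.notMem_empty q)) c
    simpa using h
  · have h := main_one h4 h3 (fun q q' hq hq' hq2 hq2' hq1 hq1' => by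
      obtain ⟨a, ha⟩ := Finset.card_eq_one.1 hw
      have h1 := hmem q hq hq2 hq1
      have h2 := hmem q' hq' hq2' hq1'
      rw [ha, Finset.mem_singleton] at h1 h2
      rw [h1, h2]) c
    refine h.trans (le_of_eq ?_)
    norm_num

end Pool.Agent.Results.MP_90787a_nt.UnicriticalFamily
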